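import Pool.Agent.KS6_47.KMF.Base

/-!
# The sets which support a KMF mean
-/

set_option autoImplicit false
set_option linter.unusedSectionVars false

namespace Pool.Agent.Results.MP_49446c_co.Characterisation

open Topology Filter MeasureTheory Pool.Agent.KS6_47.KMF

universe u

section Defs

variable {G : Type u} [CommGroup G] [TopologicalSpace G] [MeasurableSpace (PontryaginDual G)]

/-- `μ` is a continuous measure: a finite (outer regular) Borel measure on the dual group without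
atoms. -/
def IsCont (μ : Measure (PontryaginDual G)) : Prop :=
  IsFiniteMeasure μ ∧ μ.OuterRegular ∧ ∀ χ, μ {χ} = 0

/-- `M` is a KMF mean: it annihilates continuous measures and massively accumulates at `0`. -/
def IsKMF (M : (G → ℝ) → ℝ) : Prop :=
  IsMean M ∧ (∀ μ : Measure (PontryaginDual G), IsCont μ → M (fun g => ‖hat μ g‖) = 0) ∧
    ∀ l ε, 0 < ε → 0 < M ((Bohr l ε).indicator 1)

/-- `S` supports a KMF mean. -/
def SupportsKMF (S : Set G) : Prop := ∃ M, IsKMF M ∧ M (S.indicator 1) = 1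

/-- The elements of the Bohr set given by `l`, `ε` at which the Fourier transforms of the measures
of the list `F` are smaller than `ε`. -/
def Base (l : Finset (PontryaginDual G)) (F : List (Measure (PontryaginDual G))) (ε : ℝ) :
    Set G := {g | g ∈ Bohr l ε ∧ ∀ μ ∈ F, ‖hat μ g‖ < ε}

/-- `p` is a KMF ultrafilter: it contains all Bohr sets, and the Fourier transforms of continuous
measures tend to `0` along `p`. -/
def IsKMFUltrafilter (p : Ultrafilter G) : Prop :=
  (∀ l ε, 0 < ε → Bohr l ε ∈ p) ∧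
    ∀ μ : Measure (PontryaginDual G), IsCont μ → Tendsto (fun g => ‖hat μ g‖) p (𝓝 0)

/-- `S` is expanding: `d*(S ∩ B) > 0` for all Bohr sets `B`. -/
def Expanding (S : Set G) : Prop := ∀ l ε, 0 < ε → 0 < dstar (S ∩ Bohr l ε)

end Defs

variable {G : Type u} [CommGroup G] [TopologicalSpace G] [DiscreteTopology G]
  [MeasurableSpace (PontryaginDual G)] [BorelSpace (PontryaginDual G)]

/-- The indicator of the part of a set where one of the transforms is large. -/
theorem ind_le (A : Set G) (F : List (Measure (PontryaginDual G))) {ε : ℝ} (hε : 0 < ε) (g : G)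
    (hg : g ∈ A → ∃ μ ∈ F, ε ≤ ‖hat μ g‖) :
    A.indicator (1 : G → ℝ) g ≤ (F.map fun μ => ε⁻¹ * ‖hat μ g‖).sum := by
  by_cases h : g ∈ A
  · obtain ⟨μ, hμ, h1⟩ := hg h
    rw [Set.indicator_of_mem h]
    have h2 : ε⁻¹ * ‖hat μ g‖ ≤ (F.map fun μ => ε⁻¹ * ‖hat μ g‖).sum := by
      apply List.single_le_sum
      · intro x hx
        obtain ⟨ν, -, rfl⟩ := List.mem_map.1 hx
        positivity
      · exact List.mem_map.2 ⟨μ, hμ, rfl⟩
    refine le_trans ?_ h2
    rw [Pi.one_apply, ← inv_mul_cancel₀ hε.ne']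
    exact mul_le_mul_of_nonneg_left h1 (inv_nonneg.2 hε.le)
  · rw [Set.indicator_of_notMem h]
    apply List.sum_nonneg
    intro x hx
    obtain ⟨ν, -, rfl⟩ := List.mem_map.1 hx
    positivity

theorem bdd_sum (F : List (Measure (PontryaginDual G))) (hF : ∀ μ ∈ F, IsCont μ) (c : ℝ) :
    Bdd (fun g : G => (F.map fun μ => c * ‖hat μ g‖).sum) := by
  induction F with
  | nil => exact ⟨0, fun x => by simp⟩
  | cons ν F ih =>
    obtain ⟨C, hC⟩ := ih fun μ hμ => hF μ (List.mem_cons_of_mem _ hμ)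
    have : IsFiniteMeasure ν := (hF ν List.mem_cons_self).1
    obtain ⟨D, hD⟩ := hat_bdd (G := G) ν
    refine ⟨|c| * D + C, fun x => ?_⟩
    show |((ν :: F).map fun μ => c * ‖hat μ x‖).sum| ≤ _
    rw [List.map_cons, List.sum_cons]
    refine (abs_add_le _ _).trans (add_le_add ?_ (hC x))
    rw [abs_mul]
    exact mul_le_mul_of_nonneg_left (hD x) (abs_nonneg _)

theorem mean_sum {M : (G → ℝ) → ℝ} (hM : IsMean M) (F : List (Measure (PontryaginDual G)))
    (hF : ∀ μ ∈ F, IsCont μ) (h0 : ∀ μ ∈ F, M (fun g => ‖hat μ g‖) ≤ 0) {c : ℝ} (hc : 0 ≤ c) :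
    M (fun g : G => (F.map fun μ => c * ‖hat μ g‖).sum) ≤ 0 := by
  induction F with
  | nil =>
    have := hM.const 0
    simp only [List.map_nil, List.sum_nil]
    exact this.le
  | cons ν F ih =>
    have : IsFiniteMeasure ν := (hF ν List.mem_cons_self).1
    have hb : Bdd (fun g : G => ‖hat ν g‖) := hat_bdd (G := G) ν
    have hb2 : Bdd (c • fun g : G => ‖hat ν g‖) := by
      obtain ⟨D, hD⟩ := hb
      exact ⟨|c| * D, fun x => by
        rw [Pi.smul_apply, smul_eq_mul, abs_mul]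
        exact mul_le_mul_of_nonneg_left (hD x) (abs_nonneg _)⟩
    have h1 := ih (fun μ hμ => hF μ (List.mem_cons_of_mem _ hμ))
      (fun μ hμ => h0 μ (List.mem_cons_of_mem _ hμ))
    have e : (fun g : G => ((ν :: F).map fun μ => c * ‖hat μ g‖).sum) =
        (c • fun g : G => ‖hat ν g‖) + fun g : G => (F.map fun μ => c * ‖hat μ g‖).sum := by
      funext g
      simp
    rw [e, hM.1 _ _ hb2 (bdd_sum F (fun μ hμ => hF μ (List.mem_cons_of_mem _ hμ)) c),
      hM.2.1 _ _ hb]
    have h2 := h0 ν List.mem_cons_self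
    nlinarith [mul_nonneg_of_nonpos_of_nonpos h2 (neg_nonpos.2 hc)]

/-- Sets on which one of finitely many transforms is large are null for a mean which annihilates
these measures. -/
theorem null_of_large {M : (G → ℝ) → ℝ} (hM : IsMean M) (F : List (Measure (PontryaginDual G)))
    (hF : ∀ μ ∈ F, IsCont μ) (h0 : ∀ μ ∈ F, M (fun g => ‖hat μ g‖) ≤ 0) {ε : ℝ} (hε : 0 < ε)
    (A : Set G) (hA : ∀ g ∈ A, ∃ μ ∈ F, ε ≤ ‖hat μ g‖) : M (A.indicator 1) ≤ 0 := by
  refine (hM.mono (bdd_ind A (bdd_const 1)) (bdd_sum F hF ε⁻¹) fun g => ?_).trans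
    (mean_sum hM F hF h0 (inv_nonneg.2 hε.le))
  exact ind_le A F hε g (hA g)

theorem bdd_ind1 (A : Set G) : Bdd (A.indicator (1 : G → ℝ)) := bdd_ind A (bdd_const 1)

theorem ind_nonneg (A : Set G) (x : G) : 0 ≤ A.indicator (1 : G → ℝ) x :=
  Set.indicator_nonneg (fun _ _ => zero_le_one) x

theorem mean_mono {M : (G → ℝ) → ℝ} (hM : IsMean M) {A B : Set G} (h : A ⊆ B) :
    M (A.indicator 1) ≤ M (B.indicator 1) :=
  hM.mono (bdd_ind1 A) (bdd_ind1 B) fun x =>
    Set.indicator_le_indicator_of_subset h (fun _ => zero_le_one) x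

theorem mean_union {M : (G → ℝ) → ℝ} (hM : IsMean M) (A B : Set G) :
    M ((A ∪ B).indicator 1) ≤ M (A.indicator 1) + M (B.indicator 1) := by
  rw [← hM.1 _ _ (bdd_ind1 A) (bdd_ind1 B)]
  refine hM.mono (bdd_ind1 _) ?_ fun x => ?_
  · obtain ⟨C, hC⟩ := bdd_ind1 A
    obtain ⟨D, hD⟩ := bdd_ind1 B
    exact ⟨C + D, fun x => (abs_add_le _ _).trans (add_le_add (hC x) (hD x))⟩
  · rw [Pi.add_apply]
    by_cases h1 : x ∈ A
    · by_cases h2 : x ∈ B <;> simp [h1, h2]
    · by_cases h2 : x ∈ B <;> simp [h1, h2]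

theorem mean_univ {M : (G → ℝ) → ℝ} (hM : IsMean M) : M ((Set.univ : Set G).indicator 1) = 1 := by
  rw [Set.indicator_univ]
  exact hM.2.2.2

/-- A set which supports a KMF mean meets all the basic sets. -/
theorem meets_of_supports {S : Set G} (h : SupportsKMF S) (l : Finset (PontryaginDual G))
    (F : List (Measure (PontryaginDual G))) (hF : ∀ μ ∈ F, IsCont μ) {ε : ℝ} (hε : 0 < ε) :
    (S ∩ Base l F ε).Nonempty := by
  obtain ⟨M, ⟨hM, h0, hB⟩, hS⟩ := h
  by_contra hcon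
  rw [Set.not_nonempty_iff_eq_empty] at hcon
  have h1 : M ((S ∩ Bohr l ε).indicator 1) ≤ 0 := by
    refine null_of_large hM F hF (fun μ hμ => (h0 μ (hF μ hμ)).le) hε _ ?_
    intro g hg
    by_contra hc
    push Not at hc
    have : g ∈ S ∩ Base l F ε := ⟨hg.1, hg.2, hc⟩
    rw [hcon] at this
    exact this
  have h2 : M (Sᶜ.indicator 1) ≤ 0 := by
    have e : (1 : G → ℝ) = S.indicator 1 + Sᶜ.indicator 1 := by
      rw [Set.indicator_self_add_compl]
    have h3 := hM.2.2.2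
    rw [e, hM.1 _ _ (bdd_ind1 S) (bdd_ind1 _), hS] at h3
    linarith
  have h3 : M ((Bohr l ε).indicator 1) ≤ M ((S ∩ Bohr l ε).indicator 1) + M (Sᶜ.indicator 1) := by
    refine le_trans (mean_mono hM ?_) (mean_union hM _ _)
    intro g hg
    by_cases h : g ∈ S
    · exact Or.inl ⟨h, hg⟩
    · exact Or.inr h
  have h4 := hB l ε hε
  linarith

theorem bohr_anti {l l' : Finset (PontryaginDual G)} (h : l ⊆ l') {ε ε' : ℝ} (he : ε' ≤ ε) :
    Bohr l' ε' ⊆ Bohr l ε := fun _ hg χ hχ => (hg χ (h hχ)).trans_le he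

/-- A set which meets all the basic sets belongs to a KMF ultrafilter. -/
theorem exists_ultrafilter {S : Set G}
    (h : ∀ (l : Finset (PontryaginDual G)) (F : List (Measure (PontryaginDual G))),
      (∀ μ ∈ F, IsCont μ) → ∀ ε : ℝ, 0 < ε → (S ∩ Base l F ε).Nonempty) :
    ∃ p : Ultrafilter G, S ∈ p ∧ IsKMFUltrafilter p := by
  classical
  let I := Finset (PontryaginDual G) × {F : List (Measure (PontryaginDual G)) // ∀ μ ∈ F, IsCont μ} × ℕ
  let s : I → Set G := fun i => S ∩ Base i.1 i.2.1.1 (1 / ((i.2.2 : ℝ) + 1))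
  have hI : Nonempty I := ⟨(∅, ⟨[], fun μ hμ => absurd hμ (by simp)⟩, 0)⟩
  have hpos : ∀ n : ℕ, (0 : ℝ) < 1 / ((n : ℝ) + 1) := fun n => Nat.one_div_pos_of_nat
  have hdir : Directed (· ≥ ·) fun i => 𝓟 (s i) := by
    intro i j
    refine ⟨(i.1 ∪ j.1, ⟨i.2.1.1 ++ j.2.1.1, fun μ hμ => ?_⟩, max i.2.2 j.2.2), ?_, ?_⟩
    · rcases List.mem_append.1 hμ with h | h
      · exact i.2.1.2 μ h
      · exact j.2.1.2 μ h
    · refine principal_mono.2 ?_
      rintro g ⟨h1, h2, h3⟩
      have hle : 1 / (((max i.2.2 j.2.2 : ℕ) : ℝ) + 1) ≤ 1 / ((i.2.2 : ℝ) + 1) :=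
        Nat.one_div_le_one_div (le_max_left _ _)
      exact ⟨h1, bohr_anti Finset.subset_union_left hle h2,
        fun μ hμ => (h3 μ (List.mem_append_left _ hμ)).trans_le hle⟩
    · refine principal_mono.2 ?_
      rintro g ⟨h1, h2, h3⟩
      have hle : 1 / (((max i.2.2 j.2.2 : ℕ) : ℝ) + 1) ≤ 1 / ((j.2.2 : ℝ) + 1) :=
        Nat.one_div_le_one_div (le_max_right _ _)
      exact ⟨h1, bohr_anti Finset.subset_union_right hle h2,
        fun μ hμ => (h3 μ (List.mem_append_right _ hμ)).trans_le hle⟩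
  have hne : NeBot (⨅ i, 𝓟 (s i)) := by
    refine iInf_neBot_of_directed' hdir fun i => ?_
    rw [principal_neBot_iff]
    exact h i.1 i.2.1.1 i.2.1.2 _ (hpos _)
  let p : Ultrafilter G := Ultrafilter.of (⨅ i, 𝓟 (s i))
  have hp : ∀ i, s i ∈ p := fun i =>
    (Ultrafilter.of_le (⨅ i, 𝓟 (s i))) (mem_iInf_of_mem i (mem_principal_self _))
  refine ⟨p, mem_of_superset (hp (∅, ⟨[], fun μ hμ => absurd hμ (by simp)⟩, 0))
    fun g hg => hg.1, fun l ε hε => ?_, fun μ hμ => ?_⟩
  · obtain ⟨n, hn⟩ := exists_nat_one_div_lt hε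
    refine mem_of_superset (hp (l, ⟨[], fun μ hμ => absurd hμ (by simp)⟩, n)) fun g hg => ?_
    exact bohr_anti (Finset.Subset.refl _) hn.le hg.2.1
  · rw [Metric.tendsto_nhds]
    intro ε hε
    obtain ⟨n, hn⟩ := exists_nat_one_div_lt hε
    refine mem_of_superset (hp (∅, ⟨[μ], fun ν hν => by
      rw [List.mem_singleton] at hν; rw [hν]; exact hμ⟩, n)) fun g hg => ?_
    have := hg.2.2 μ (List.mem_singleton_self _)
    show dist ‖hat μ g‖ 0 < ε
    rw [Real.dist_eq, sub_zero, abs_norm]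
    exact this.trans hn

/-- The limit along an ultrafilter is a multiplicative mean. -/
theorem exists_mulMean (p : Ultrafilter G) :
    ∃ M : (G → ℝ) → ℝ, IsMean M ∧ (∀ f g, Bdd f → Bdd g → M (f * g) = M f * M g) ∧
      ∀ f c, Tendsto f p (𝓝 c) → M f = c := by
  have ht : ∀ f : G → ℝ, Bdd f → Tendsto f (p : Filter G) (𝓝 (limUnder (p : Filter G) f)) := by
    intro f hf
    obtain ⟨C, hC⟩ := hf
    obtain ⟨a, -, ha⟩ := (isCompact_Icc (a := -C) (b := C)).ultrafilter_le_nhds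
      (p.map f) (by
        rw [le_principal_iff, Ultrafilter.coe_map, mem_map]
        exact univ_mem' fun i => ⟨(abs_le.1 (hC i)).1, (abs_le.1 (hC i)).2⟩)
    exact tendsto_nhds_limUnder ⟨a, ha⟩
  have hc : ∀ (f : G → ℝ) (c : ℝ), Tendsto f (p : Filter G) (𝓝 c) →
      limUnder (p : Filter G) f = c := fun f c h => h.limUnder_eq
  refine ⟨fun f => limUnder (p : Filter G) f, ⟨fun f g hf hg => ?_, fun c f hf => ?_,
    fun f hf h0 => ?_, hc _ _ tendsto_const_nhds⟩, fun f g hf hg => ?_, hc⟩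
  · exact ((ht f hf).add (ht g hg)).limUnder_eq
  · exact ((ht f hf).const_mul c).limUnder_eq
  · exact ge_of_tendsto' (ht f hf) h0
  · exact ((ht f hf).mul (ht g hg)).limUnder_eq

theorem ind_tendsto {p : Ultrafilter G} {A : Set G} (hA : A ∈ p) :
    Tendsto (A.indicator (1 : G → ℝ)) p (𝓝 1) := by
  refine tendsto_const_nhds.congr' ?_
  refine mem_of_superset hA fun g hg => ?_
  show (1 : ℝ) = A.indicator 1 g
  rw [Set.indicator_of_mem hg, Pi.one_apply]

/-- The mean given by a KMF ultrafilter. -/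
theorem mulMean_of_ultrafilter {S : Set G} {p : Ultrafilter G} (hS : S ∈ p)
    (hp : IsKMFUltrafilter p) :
    ∃ M, IsKMF M ∧ M (S.indicator 1) = 1 ∧ (∀ f g, Bdd f → Bdd g → M (f * g) = M f * M g) ∧
      ∀ l ε, 0 < ε → M ((Bohr l ε).indicator 1) = 1 := by
  obtain ⟨M, hM, hmul, hlim⟩ := exists_mulMean p
  have hB : ∀ l ε, 0 < ε → M ((Bohr l ε).indicator 1) = 1 := fun l ε hε =>
    hlim _ _ (ind_tendsto (hp.1 l ε hε))
  refine ⟨M, ⟨hM, fun μ hμ => hlim _ _ (hp.2 μ hμ), fun l ε hε => ?_⟩, hlim _ _ (ind_tendsto hS),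
    hmul, hB⟩
  rw [hB l ε hε]
  exact one_pos

/-- For invariant means the sets where the transforms are large are null. -/
theorem dstar_base (S : Set G) (l : Finset (PontryaginDual G))
    (F : List (Measure (PontryaginDual G))) (hF : ∀ μ ∈ F, IsCont μ) {ε : ℝ} (hε : 0 < ε) :
    dstar (S ∩ Base l F ε) = dstar (S ∩ Bohr l ε) := by
  unfold dstar
  congr 1
  have key : ∀ M : (G → ℝ) → ℝ, IsMean M → IsInv M →
      M ((S ∩ Base l F ε).indicator 1) = M ((S ∩ Bohr l ε).indicator 1) := by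
    intro M hM hI
    apply le_antisymm
    · exact mean_mono hM fun g hg => ⟨hg.1, hg.2.1⟩
    · have h0 : ∀ μ ∈ F, M (fun g => ‖hat μ g‖) ≤ 0 := by
        intro μ hμ
        obtain ⟨h1, h2, h3⟩ := hF μ hμ
        exact wiener μ h3 hM hI
      have h1 : M ((S ∩ Bohr l ε ∩ {g | ∃ μ ∈ F, ε ≤ ‖hat μ g‖}).indicator 1) ≤ 0 :=
        null_of_large hM F hF h0 hε _ fun g hg => hg.2
      have h2 : M ((S ∩ Bohr l ε).indicator 1) ≤ M ((S ∩ Base l F ε).indicator 1) +
          M ((S ∩ Bohr l ε ∩ {g | ∃ μ ∈ F, ε ≤ ‖hat μ g‖}).indicator 1) := by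
        refine le_trans (mean_mono hM ?_) (mean_union hM _ _)
        intro g hg
        by_cases h : ∃ μ ∈ F, ε ≤ ‖hat μ g‖
        · exact Or.inr ⟨hg, h⟩
        · push Not at h
          exact Or.inl ⟨hg.1, hg.2, h⟩
      linarith
  ext t
  constructor
  · rintro ⟨M, h1, h2, rfl⟩
    exact ⟨M, h1, h2, key M h1 h2⟩
  · rintro ⟨M, h1, h2, rfl⟩
    exact ⟨M, h1, h2, (key M h1 h2).symm⟩

theorem nonempty_of_dstar {A : Set G} (h : 0 < dstar A) : A.Nonempty := by
  by_contra hcon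
  rw [Set.not_nonempty_iff_eq_empty] at hcon
  subst hcon
  refine absurd h (not_lt.2 (Real.sSup_nonpos ?_))
  rintro _ ⟨M, m1, m2, rfl⟩
  rw [Set.indicator_empty]
  exact (m1.const 0).le

/-- **The sets which support a KMF mean.** Let `G` be a discrete abelian group and `S ⊆ G`.

(1) The following are equivalent: (a) `S` supports a KMF mean; (b) `S` belongs to a KMF
ultrafilter; (c) `S` supports a multiplicative KMF mean which is `1` at all Bohr sets; (d) `S`
meets all the sets `Base l F ε`, i.e. for all Bohr sets `B`, all finite lists of continuous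
measures and all `ε > 0` there is a `g ∈ S ∩ B` with `|μ^(g)| < ε` for all these measures.

(2) A set `R` meets every set which supports a KMF mean if and only if it contains one of the sets
`Base l F ε`.

(3) For an arbitrary `S`, `d*(S ∩ Base l F ε) = d*(S ∩ B)`, where `B` is the Bohr set of `l`, `ε`.

(4) (Q1) Hence every expanding set satisfies (a), (b), (c), (d). -/
theorem result (G : Type u) [CommGroup G] [TopologicalSpace G] [DiscreteTopology G]
    [MeasurableSpace (PontryaginDual G)] [BorelSpace (PontryaginDual G)] (S : Set G) :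
    List.TFAE [SupportsKMF S,
      ∃ p : Ultrafilter G, S ∈ p ∧ IsKMFUltrafilter p,
      ∃ M, IsKMF M ∧ M (S.indicator 1) = 1 ∧ (∀ f g, Bdd f → Bdd g → M (f * g) = M f * M g) ∧
        ∀ l ε, 0 < ε → M ((Bohr l ε).indicator 1) = 1,
      ∀ (l : Finset (PontryaginDual G)) (F : List (Measure (PontryaginDual G))),
        (∀ μ ∈ F, IsCont μ) → ∀ ε : ℝ, 0 < ε → (S ∩ Base l F ε).Nonempty] ∧
    ((∀ T : Set G, SupportsKMF T → (T ∩ S).Nonempty) ↔
      ∃ (l : Finset (PontryaginDual G)) (F : List (Measure (PontryaginDual G))) (ε : ℝ),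
        (∀ μ ∈ F, IsCont μ) ∧ 0 < ε ∧ Base l F ε ⊆ S) ∧
    (∀ (l : Finset (PontryaginDual G)) (F : List (Measure (PontryaginDual G))),
        (∀ μ ∈ F, IsCont μ) → ∀ ε : ℝ, 0 < ε →
          dstar (S ∩ Base l F ε) = dstar (S ∩ Bohr l ε)) ∧
    (Expanding S → SupportsKMF S) := by
  have key : ∀ S : Set G, List.TFAE [SupportsKMF S,
      ∃ p : Ultrafilter G, S ∈ p ∧ IsKMFUltrafilter p,
      ∃ M, IsKMF M ∧ M (S.indicator 1) = 1 ∧ (∀ f g, Bdd f → Bdd g → M (f * g) = M f * M g) ∧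
        ∀ l ε, 0 < ε → M ((Bohr l ε).indicator 1) = 1,
      ∀ (l : Finset (PontryaginDual G)) (F : List (Measure (PontryaginDual G))),
        (∀ μ ∈ F, IsCont μ) → ∀ ε : ℝ, 0 < ε → (S ∩ Base l F ε).Nonempty] := by
    intro S
    tfae_have 1 → 4 := fun h l F hF ε hε => meets_of_supports h l F hF hε
    tfae_have 4 → 2 := fun h => exists_ultrafilter h
    tfae_have 2 → 3 := by
      rintro ⟨p, h1, h2⟩
      exact mulMean_of_ultrafilter h1 h2
    tfae_have 3 → 1 := by
      rintro ⟨M, h1, h2, -⟩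
      exact ⟨M, h1, h2⟩
    tfae_finish
  refine ⟨key S, ?_, fun l F hF ε hε => dstar_base S l F hF hε, ?_⟩
  · constructor
    · intro h
      by_contra hcon
      push Not at hcon
      have h1 : SupportsKMF Sᶜ := by
        refine ((key Sᶜ).out 0 3).2 fun l F hF ε hε => ?_
        obtain ⟨g, hg, hgS⟩ := Set.not_subset.1 (hcon l F ε hF hε)
        exact ⟨g, hgS, hg⟩
      obtain ⟨g, h2, h3⟩ := h _ h1
      exact h2 h3
    · rintro ⟨l, F, ε, hF, hε, hsub⟩ T hT
      obtain ⟨g, hg, hgB⟩ := meets_of_supports hT l F hF hε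
      exact ⟨g, hg, hsub hgB⟩
  · intro hS
    refine ((key S).out 0 3).2 fun l F hF ε hε => ?_
    apply nonempty_of_dstar
    rw [dstar_base S l F hF hε]
    exact hS l ε hε

end Pool.Agent.Results.MP_49446c_co.Characterisation
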